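import Pool.Agent.MP_ed9623_an.H77.SpecX
import Pool.Agent.MP_ed9623_an.H99.Tail

/-! The steady case: the convective derivative of the vorticity vanishes near the boundary. -/

open MeasureTheory Filter Topology Set
open scoped ContDiff

namespace Pool.Agent.MP_ed9623_an.H77

open H64

open Tail in
theorem rowStdy : OfStdy := by
  intro ρ x₀ t₀ ε W hρ' h0 hk' Z hz t ht
  have ε0 : 0 < ε := Metric.pos_of_mem_ball ht
  have hρ : ∀ k : ℕ, ContDiff ℝ k ρ := fun k => hρ'.of_le (by exact_mod_cast le_top)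
  have hk : 0 < curv2 ρ x₀ := by
    by_contra h
    exact hk'.not_ge (div_nonpos_of_nonpos_of_nonneg (not_lt.1 h) (by positivity))
  have cW1 := Z.c6 0
  have cW2 := Z.c6 1
  have bW : ∀ y : ST, ρ y.2 = 0 → W 0 y = 0 ∧ W 1 y = 0 := fun y hy => ⟨Z.bd 0 y hy, Z.bd 1 y hy⟩
  have l3 := fun {f : ST → ℝ} (h : ContDiff ℝ (6 : ℕ) f) => cdg_le h (by norm_num : 3 ≤ 6)
  have l2 := fun {f : ST → ℝ} (h : ContDiff ℝ (6 : ℕ) f) => cdg_le h (by norm_num : 2 ≤ 6)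
  have cω := cd_vort (n := 3) (cdg_le cW1 (by norm_num)) (cdg_le cW2 (by norm_num))
  have cω1 := cdg_le cω (by norm_num : 1 ≤ 3)
  have hc := (curv2_cont (hρ 2)).continuousAt.eventually_ne hk.ne'
  obtain ⟨δ, δ0, hδ⟩ := Metric.eventually_nhds_iff_ball.1 ((hc.and (Metric.ball_mem_nhds x₀ ε0)).and
    (arc_loc (hρ 1).contDiffAt h0 (fderiv_ne_of_curv2 hk.ne')
      (hc.and (Metric.ball_mem_nhds x₀ ε0))))
  have ev : ∀ y : ST, y.1 ∈ Metric.ball t₀ ε → y.2 ∈ Metric.ball x₀ ε → ∀ᶠ z : ST in 𝓝 y,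
      ρ z.2 < 0 → Lh (W 0) z = 0 ∧ Lh (W 1) z = 0 ∧ pd e1 (W 0) z + pd e2 (W 1) z = 0 :=
    fun y a b => mem_of_superset ((Metric.isOpen_ball.prod Metric.isOpen_ball).mem_nhds ⟨a, b⟩)
      fun z hz k => let e := Z.eq z hz.1 hz.2 k; ⟨e.1, e.2.1, e.2.2.1⟩
  have ar : ∀ x ∈ Metric.ball x₀ δ, ρ x = 0 → ∀ s ∈ Metric.ball t₀ ε,
      vort (W 0) (W 1) (s, x) = vort (W 0) (W 1) (s, x₀) := fun x hx hx' s hs =>
    (hδ x hx).2 hx' _ (fun x => cdg_diff (cω1.comp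
      (by fun_prop : ContDiff ℝ (1 : ℕ) fun x : ℝ × ℝ => ((s, x) : ST))) le_rfl x) fun y a b =>
        gradV (hρ 0).continuous (l3 cW1) (l3 cW2) bW b (fderiv_ne_of_curv2 a.1) (ev (s, y) hs a.2)
  have uc := vec_uc (a := 0) (b := 1) (c := 0) hρ h0 (fderiv_ne_of_curv2 hk.ne') δ0
    Metric.isOpen_ball cW1 cW2 (fun y j1 j2 => (ev y j1 (hδ _ j2).1.2).self_of_nhds) bW
    fun y j1 j2 j3 => ⟨(hδ _ j2).1.1, by
      unfold Tm
      rw [time_loc cω1 cω1 Metric.isOpen_ball (ar y.2 j2 j3) y.1 j1, zero_mul, zero_mul, one_mul,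
        zero_add, add_zero]
      exact hz _ j1⟩
  filter_upwards [self_mem_nhdsWithin, mem_nhdsWithin_of_mem_nhds (Metric.ball_mem_nhds x₀ δ0)]
    with y a b
  obtain ⟨u1, u2⟩ := uc (t, y) ht b a
  have e := ev (t, y) ht (hδ _ b).1.2
  obtain ⟨v1, v2, -⟩ := e.self_of_nhds a
  obtain ⟨p1, p2⟩ := vort_pd (z := (t, y)) (l2 cW1) (l2 cW2) (by
    filter_upwards [e, (isOpen_lt ((hρ 0).continuous.comp continuous_snd) continuous_const).mem_nhds
      (show ρ ((t, y) : ST).2 < 0 from a)] with v c d using (c d).2.2)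
  unfold Tm at u1 u2
  unfold Lh at v1 v2
  change W 0 (t, y) * pd e1 (vort (W 0) (W 1)) (t, y) + W 1 (t, y) * pd e2 (vort (W 0) (W 1)) (t, y)
    = 0
  rw [p1, p2]
  linear_combination W 0 (t, y) * (v2 + u2) - W 1 (t, y) * (v1 + u1)

end Pool.Agent.MP_ed9623_an.H77
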