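import Pool.Agent.MP_ed9623_an.H77.SpecW

/-! The fundamental theorem of calculus on almost every line. -/

open MeasureTheory Filter Topology Set
open scoped ContDiff

namespace Pool.Agent.MP_ed9623_an.H77

open H64

namespace Ftc

theorem ae_tend {α : Type} [MeasurableSpace α] {μ : Measure α} {u : ℕ → α → ℝ}
    (hi : ∀ n, Integrable (u n) μ) (h0 : ∀ n x, 0 ≤ u n x) (hs : Summable fun n => ∫ x, u n x ∂μ) :
    ∀ᵐ x ∂μ, Tendsto (fun n => u n x) atTop (𝓝 0) := by
  have hm : ∀ n, AEMeasurable (fun x => ENNReal.ofReal (u n x)) μ := fun n =>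
    (hi n).aemeasurable.ennreal_ofReal
  have h1 : ∫⁻ x, ∑' n, ENNReal.ofReal (u n x) ∂μ ≠ ⊤ := by
    rw [lintegral_tsum hm]
    simp only [fun n => (ofReal_integral_eq_lintegral_ofReal (hi n)
      (Eventually.of_forall (h0 n))).symm]
    rw [← ENNReal.ofReal_tsum_of_nonneg (fun n => integral_nonneg (h0 n)) hs]
    exact ENNReal.ofReal_ne_top
  filter_upwards [ae_lt_top' (AEMeasurable.tsum hm) h1] with x hx
  have h2 := (ENNReal.tendsto_toReal ENNReal.zero_ne_top).comp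
    (ENNReal.tendsto_atTop_zero_of_tsum_ne_top hx.ne)
  simpa [Function.comp_def, h0] using h2

theorem l1_le {w : P → ℝ} (hw : M2 w) {O : Set P} (hO : volume O ≠ ⊤) {δ : ℝ} (hδ : 0 < δ)
    (h : nm w ≤ δ) : ∫ p in O, |w p| ≤ δ * (volume.real O + 1) := by
  have : IsFiniteMeasure (volume.restrict O) := isFiniteMeasure_restrict.2 hO
  have i1 : Integrable w (volume.restrict O) := (MemLp.restrict O hw).integrable one_le_two
  have i2 : Integrable (fun p => w p ^ 2) (volume.restrict O) := hw.int_sq.integrableOn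
  have h1 : ∫ p in O, |w p| ≤ ∫ p in O, (δ + δ⁻¹ * w p ^ 2) := by
    refine integral_mono i1.abs ((integrable_const δ).add (i2.const_mul _)) fun p => ?_
    have h2 : δ * |w p| ≤ δ * δ + w p ^ 2 := by
      rw [← sq_abs]; nlinarith [sq_nonneg (|w p| - δ), abs_nonneg (w p)]
    have h3 : δ + δ⁻¹ * w p ^ 2 = δ⁻¹ * (δ * δ + w p ^ 2) := by field_simp
    simp only
    rw [h3, le_inv_mul_iff₀ hδ]
    exact h2
  rw [integral_add (integrable_const δ) (i2.const_mul _), integral_const_mul,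
    setIntegral_const, smul_eq_mul] at h1
  have h4 : ∫ p in O, w p ^ 2 ≤ δ * δ := by
    refine (hw.set_le O).trans ?_
    nlinarith [nm_nonneg w]
  have h5 : δ⁻¹ * ∫ p in O, w p ^ 2 ≤ δ := by
    rw [inv_mul_le_iff₀ hδ]; exact h4
  linarith

theorem vol_Bx (a b c d : ℝ) : volume (Bx a b c d) ≠ ⊤ := by
  rw [Bx, Measure.volume_eq_prod, Measure.prod_prod]
  exact ENNReal.mul_ne_top measure_Ioo_lt_top.ne measure_Ioo_lt_top.ne

theorem res_Bx (a b c d : ℝ) : (volume : Measure P).restrict (Bx a b c d) =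
    (volume.restrict (Ioo a b)).prod (volume.restrict (Ioo c d)) := by
  rw [Measure.prod_restrict]; rfl

theorem int_Bx {w : P → ℝ} (hw : M2 w) (a b c d : ℝ) :
    Integrable w ((volume.restrict (Ioo a b)).prod (volume.restrict (Ioo c d))) := by
  have : IsFiniteMeasure (volume.restrict (Bx a b c d)) :=
    isFiniteMeasure_restrict.2 (vol_Bx a b c d)
  rw [← res_Bx]
  exact (MemLp.restrict _ hw).integrable one_le_two

theorem sum_Bx {w : ℕ → P → ℝ} (hw : ∀ n, M2 (w n)) (h : ∀ n, nm (w n) ≤ (1 / 2) ^ n)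
    (a b c d : ℝ) : Summable fun n =>
      ∫ p, |w n p| ∂(volume.restrict (Ioo a b)).prod (volume.restrict (Ioo c d)) := by
  rw [← res_Bx]
  exact Summable.of_nonneg_of_le (fun n => integral_nonneg fun _ => abs_nonneg _)
    (fun n => l1_le (hw n) (vol_Bx a b c d) (by positivity) (h n))
    (summable_geometric_two.mul_right _)

theorem kernels (h2 : Mol2S) {f g : P → ℝ} (hf : M2 f) (hg : M2 g) (n : ℕ) :
    ∃ (ε : ℝ) (k : P → ℝ), ε ≤ (1 / 2) ^ n ∧ Ker ε k ∧
      nm (fun p => mol k f p - f p) ≤ (1 / 2) ^ n ∧ nm (fun p => mol k g p - g p) ≤ (1 / 2) ^ n := by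
  have hp : (0 : ℝ) < (1 / 2) ^ n := by positivity
  obtain ⟨e1, he1, h1⟩ := h2.2.2.2 f hf _ hp
  obtain ⟨e2, he2, h3⟩ := h2.2.2.2 g hg _ hp
  have he : 0 < min ((1 / 2 : ℝ) ^ n) (min e1 e2) := lt_min hp (lt_min he1 he2)
  obtain ⟨k, hk, -⟩ := h2.1 _ _ Metric.isOpen_ball ⟨0, Metric.mem_ball_self he⟩ subset_rfl
  exact ⟨_, k, min_le_left _ _, hk, h1 _ k ((min_le_right _ _).trans (min_le_left _ _)) hk,
    h3 _ k ((min_le_right _ _).trans (min_le_right _ _)) hk⟩

theorem line (h1 : Mol1S) {a b c d ε : ℝ} {f g k : P → ℝ} (hf : M2 f) (hg : M2 g)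
    (h : WD (Bx a b c d) (ee 1) f g) (hk : Ker ε k) {y s s' : ℝ} (hy : a + ε ≤ y ∧ y + ε ≤ b)
    (hs : c + ε ≤ s ∧ s + ε ≤ d) (hs' : c + ε ≤ s' ∧ s' + ε ≤ d) :
    ∫ σ in s'..s, mol k g (y, σ) = mol k f (y, s) - mol k f (y, s') := by
  obtain ⟨sf, df⟩ := (h1 k hk.test).1 f hf
  have sg := ((h1 k hk.test).1 g hg).1
  refine intervalIntegral.integral_eq_sub_of_hasDerivAt (f := fun σ => mol k f (y, σ))
    (fun σ hσ => ?_) ((sg.continuous.comp (Continuous.prodMk_right y)).intervalIntegrable _ _)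
  have hσ' : c + ε ≤ σ ∧ σ + ε ≤ d := by
    rcases mem_uIcc.1 hσ with h3 | h3
    · exact ⟨by linarith [h3.1, hs'.1], by linarith [h3.2, hs.2]⟩
    · exact ⟨by linarith [h3.1, hs.1], by linarith [h3.2, hs'.2]⟩
  have e : mol k g (y, σ) = pd (ee 1) (mol k f) (y, σ) := by
    rw [df]
    refine (mol_wd hk.test h fun z hz => ?_).symm
    have h3 := hk.1.2.2 hz
    rw [← Q_eq_ball, mem_Q, abs_lt, abs_lt] at h3
    simp only [Prod.fst_sub, Prod.snd_sub] at h3
    exact mem_Bx.2 ⟨⟨by linarith [h3.1.2], by linarith [h3.1.1]⟩,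
      by linarith [h3.2.2], by linarith [h3.2.1]⟩
  rw [e]
  exact (sm_diff sf (y, σ)).hasFDerivAt.comp_hasDerivAt σ
    ((hasDerivAt_const σ y).prodMk (hasDerivAt_id σ))

theorem ev_in {ε : ℕ → ℝ} (hε : ∀ n, ε n ≤ (1 / 2) ^ n) {a b y : ℝ} (hy : y ∈ Ioo a b) :
    ∀ᶠ n in atTop, a + ε n ≤ y ∧ y + ε n ≤ b := by
  have h := tendsto_pow_atTop_nhds_zero_of_lt_one (r := (1 / 2 : ℝ)) (by norm_num) (by norm_num)
  filter_upwards [h.eventually (gt_mem_nhds (sub_pos.2 hy.1)),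
    h.eventually (gt_mem_nhds (sub_pos.2 hy.2))] with n h1 h2
  exact ⟨by linarith [hε n], by linarith [hε n]⟩

theorem uIoc_sub {c d s s' : ℝ} (hs : s ∈ Ioo c d) (hs' : s' ∈ Ioo c d) : uIoc s' s ⊆ Ioo c d :=
  fun _ hx => ⟨(lt_min hs'.1 hs.1).trans hx.1, hx.2.trans_lt (max_lt hs'.2 hs.2)⟩

theorem ii_left {c d s : ℝ} (hs : s ∈ Ioo c d) {u : ℝ → ℝ} (hu : IntegrableOn u (Ioo c d)) :
    IntervalIntegrable u volume c s := by
  rw [intervalIntegrable_iff, uIoc_of_le hs.1.le]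
  exact hu.mono_set fun _ hx => ⟨hx.1, hx.2.trans_lt hs.2⟩

theorem core (h1 : Mol1S) (h2 : Mol2S) {a b c d : ℝ} {f g : P → ℝ} (hf : M2 f) (hg : M2 g)
    (mf : StronglyMeasurable f) (mg : StronglyMeasurable g) (h : WD (Bx a b c d) (ee 1) f g) :
    ∃ T : ℝ → ℝ, Measurable T ∧
      ∀ᵐ p : P, p ∈ Bx a b c d → f p = T p.1 + ∫ σ in c..p.2, g (p.1, σ) := by
  rcases le_or_gt d c with hcd | hcd
  · exact ⟨fun _ => 0, measurable_const, Eventually.of_forall fun p hp =>
      absurd ((mem_Bx.1 hp).2.1.trans (mem_Bx.1 hp).2.2) (not_lt.2 hcd)⟩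
  choose ε k hε hk kf kg using kernels h2 hf hg
  set μ : Measure ℝ := volume.restrict (Ioo a b) with hμ
  set ν : Measure ℝ := volume.restrict (Ioo c d) with hν
  have wf : ∀ n, M2 fun p => mol (k n) f p - f p := fun n => (h2.2.1 _ _ f (hk n) hf).1.sub hf
  have wg : ∀ n, M2 fun p => mol (k n) g p - g p := fun n => (h2.2.1 _ _ g (hk n) hg).1.sub hg
  have A1 : ∀ᵐ p ∂μ.prod ν, Tendsto (fun n => mol (k n) f p) atTop (𝓝 (f p)) := by
    filter_upwards [ae_tend (fun n => (int_Bx (wf n) a b c d).abs) (fun _ _ => abs_nonneg _)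
      (sum_Bx wf kf a b c d)] with p hp
    exact tendsto_iff_norm_sub_tendsto_zero.2 hp
  have A2 : ∀ᵐ y ∂μ,
      Tendsto (fun n => ∫ σ, |mol (k n) g (y, σ) - g (y, σ)| ∂ν) atTop (𝓝 0) := by
    refine ae_tend (fun n => (int_Bx (wg n) a b c d).abs.integral_prod_left)
      (fun _ _ => integral_nonneg fun _ => abs_nonneg _) ?_
    refine (sum_Bx wg kg a b c d).congr fun n => ?_
    exact integral_prod _ (int_Bx (wg n) a b c d).abs
  have A3 : ∀ᵐ y ∂μ, Integrable (fun σ => g (y, σ)) ν := (int_Bx hg a b c d).prod_right_ae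
  have A4 : ∀ᵐ y ∂μ, ∀ n, Integrable (fun σ => mol (k n) g (y, σ) - g (y, σ)) ν :=
    ae_all_iff.2 fun n => (int_Bx (wg n) a b c d).prod_right_ae
  have A5 : ∀ᵐ s ∂ν, ∀ᵐ y ∂μ, Tendsto (fun n => mol (k n) f (y, s)) atTop (𝓝 (f (y, s))) :=
    Measure.ae_ae_of_ae_prod
      ((Measure.measurePreserving_swap (μ := ν) (ν := μ)).quasiMeasurePreserving.ae A1)
  have : NeBot (ae ν) := by
    rw [ae_neBot, hν, Ne, Measure.restrict_eq_zero]
    simpa using hcd
  obtain ⟨s', hs', A6⟩ := ((ae_restrict_mem measurableSet_Ioo).and A5).exists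
  refine ⟨fun y => f (y, s') - ∫ σ in c..s', g (y, σ), ?_, ?_⟩
  · refine (mf.measurable.comp (measurable_id.prodMk measurable_const)).sub ?_
    simp only [intervalIntegral.integral_of_le hs'.1.le]
    exact (mg.integral_prod_right' (ν := volume.restrict (Ioc c s'))).measurable
  rw [← ae_restrict_iff' (isOpen_Bx a b c d).measurableSet]
  have A0 := ae_restrict_mem (μ := volume) (isOpen_Bx a b c d).measurableSet
  rw [res_Bx] at A0 ⊢
  filter_upwards [A0, A1, Measure.quasiMeasurePreserving_fst.ae (A2.and (A3.and (A4.and A6)))]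
    with ⟨y, s⟩ hp B1 ⟨B2, B3, B4, B6⟩
  have hy : y ∈ Ioo a b := hp.1
  have hs : s ∈ Ioo c d := hp.2
  simp only at B2 B3 B4 B6 ⊢
  have ig : IntervalIntegrable (fun σ => g (y, σ)) volume s' s :=
    intervalIntegrable_iff.2 (IntegrableOn.mono_set B3 (uIoc_sub hs hs'))
  have T1 : Tendsto (fun n => ∫ σ in s'..s, mol (k n) g (y, σ)) atTop
      (𝓝 (∫ σ in s'..s, g (y, σ))) := by
    rw [tendsto_iff_norm_sub_tendsto_zero]
    refine squeeze_zero (fun _ => norm_nonneg _) (fun n => ?_) B2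
    have iw : IntervalIntegrable (fun σ => mol (k n) g (y, σ) - g (y, σ)) volume s' s :=
      intervalIntegrable_iff.2 (IntegrableOn.mono_set (B4 n) (uIoc_sub hs hs'))
    have im : IntervalIntegrable (fun σ => mol (k n) g (y, σ)) volume s' s := by
      simpa using iw.add ig
    rw [← intervalIntegral.integral_sub im ig]
    refine intervalIntegral.norm_integral_le_integral_norm_uIoc.trans ?_
    exact setIntegral_mono_set (B4 n).abs (Eventually.of_forall fun _ => abs_nonneg _)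
      (uIoc_sub hs hs').eventuallyLE
  have T2 : Tendsto (fun n => ∫ σ in s'..s, mol (k n) g (y, σ)) atTop
      (𝓝 (f (y, s) - f (y, s'))) := by
    refine (B1.sub B6).congr' ?_
    filter_upwards [ev_in hε hy, ev_in hε hs, ev_in hε hs'] with n e1 e2 e3
    exact (line h1 hf hg h (hk n) e1 e2 e3).symm
  have T3 := tendsto_nhds_unique T1 T2
  have T4 := intervalIntegral.integral_add_adjacent_intervals (ii_left hs' B3) ig
  linarith

theorem vert (h1 : Mol1S) (h2 : Mol2S) {a b c d : ℝ} {f g : P → ℝ} (hf : M2 f) (hg : M2 g)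
    (h : WD (Bx a b c d) (ee 1) f g) : ∃ T : ℝ → ℝ, Measurable T ∧
      ∀ᵐ p : P, p ∈ Bx a b c d → f p = T p.1 + ∫ σ in c..p.2, g (p.1, σ) := by
  have ef := hf.meas.ae_eq_mk
  have eg := hg.meas.ae_eq_mk
  obtain ⟨T, hT, h3⟩ := core h1 h2 (hf.congr ef) (hg.congr eg) hf.meas.stronglyMeasurable_mk
    hg.meas.stronglyMeasurable_mk
    (h.congr (ef.mono fun _ hx _ => hx) (eg.mono fun _ hx _ => hx))
  refine ⟨T, hT, ?_⟩
  have e1 : ∀ᵐ y : ℝ, ∀ᵐ σ : ℝ, g (y, σ) = hg.meas.mk g (y, σ) := Measure.ae_ae_of_ae_prod eg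
  have e2 : ∀ᵐ p : P, ∀ᵐ σ : ℝ, g (p.1, σ) = hg.meas.mk g (p.1, σ) :=
    Measure.quasiMeasurePreserving_fst.ae e1
  filter_upwards [h3, ef, e2] with p a1 a2 a3 hp
  rw [a2, a1 hp, intervalIntegral.integral_congr_ae (a3.mono fun _ hx _ => hx)]

theorem mp_swap : MeasurePreserving (Prod.swap : P → P) volume volume :=
  Measure.measurePreserving_swap

theorem int_swap (u : P → ℝ) : ∫ p : P, u p.swap = ∫ p, u p := integral_prod_swap u

theorem wd_swap {a b c d : ℝ} {f g : P → ℝ} (h : WD (Bx a b c d) (ee 0) f g) :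
    WD (Bx c d a b) (ee 1) (fun p => f p.swap) fun p => g p.swap := fun φ hφ => by
  have sm : ContDiff ℝ ∞ fun p : P => φ p.swap := hφ.1.comp (contDiff_snd.prodMk contDiff_fst)
  have ht : Test (Bx a b c d) fun p : P => φ p.swap := by
    refine ⟨sm, hφ.2.1.comp_homeomorph (Homeomorph.prodComm ℝ ℝ), ?_⟩
    have : tsupport (fun p : P => φ p.swap) ⊆ Prod.swap ⁻¹' tsupport φ :=
      closure_minimal (fun z hz => subset_tsupport φ hz)
        ((isClosed_tsupport φ).preimage continuous_swap)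
    exact fun z hz => (hφ.2.2 (this hz)).symm
  have hd : ∀ p : P, pd (ee 0) (fun p : P => φ p.swap) p = pd (ee 1) φ p.swap := fun p => by
    refine HD.pd_eq ?_ (sm_diff sm p)
    have := HD.of_diff (e := ee 1) (sm_diff hφ.1 p.swap)
    unfold HD at this ⊢
    convert this using 3
    ext <;> simp [ee]
  have h3 := h _ ht
  simp only [hd] at h3
  rw [← int_swap, ← int_swap fun x => g x.swap * φ x]
  simpa only [Prod.swap_swap] using h3

end Ftc

open Ftc in
theorem rowFtc : OfFtc := by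
  intro h1 h2 a b c d f g hf hg
  refine ⟨vert h1 h2 hf hg, fun h => ?_⟩
  obtain ⟨T, hT, h3⟩ := vert h1 h2 (f := fun p => f p.swap) (g := fun p => g p.swap)
    (hf.comp_measurePreserving mp_swap) (hg.comp_measurePreserving mp_swap) (wd_swap h)
  refine ⟨T, hT, ?_⟩
  filter_upwards [mp_swap.quasiMeasurePreserving.ae h3] with p hp hB
  exact hp hB.symm

end Pool.Agent.MP_ed9623_an.H77
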