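import Pool.Agent.MP_ed9623_an.H77.SpecZ

/-! Absorption in the Carleman estimate for weak solutions. -/

open MeasureTheory Filter Topology Set
open scoped ContDiff

namespace Pool.Agent.MP_ed9623_an.H77

open H64

namespace Rc2

theorem nm_le {f g : P → ℝ} {α : ℝ} (hf : M2 f) (hα : 0 ≤ α) (h : ∀ᵐ x, |g x| ≤ α * |f x|) :
    nm g ≤ α * nm f := by
  refine (nm_mono (hf.cmul α) (h.mono fun x hx => ?_)).trans_eq (by rw [nm_cmul, abs_of_nonneg hα])
  rwa [abs_mul, abs_of_nonneg hα]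

section est

variable {N : Set P} {M R α κ σ p : ℝ} {W z F ψi : Fin 2 → P → ℝ} {D : Fin 2 → Fin 2 → P → ℝ}
  {ψ lam : P → ℝ}

/-- The terms with a derivative of the cut-off are small. -/
def Small (α : ℝ) (W : Fin 2 → P → ℝ) (D : Fin 2 → Fin 2 → P → ℝ) (lam : P → ℝ)
    (ψi : Fin 2 → P → ℝ) : Prop :=
  ∀ᵐ x, ∀ j, |lam x * W j x| ≤ α * |W j x| ∧
    ∀ i, |ψi i x * W j x| ≤ α * |W j x| ∧ |ψi i x * D j i x| ≤ α * |D j i x|

theorem est1 (mF : ∀ j, M2 (F j)) (mW : ∀ j, M2 (W j)) (mD : ∀ j i, M2 (D j i)) (nb : Nb R W D)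
    (hψ : Test univ ψ) (hl : Test univ lam) (hi : ∀ i, Test univ (ψi i)) (hα : 0 ≤ α)
    (h1 : Small α W D lam ψi) (j : Fin 2) :
    2 * nm (fun x => lam x * W j x + 2 * ∑ i, ψi i x * D j i x - ψ x * F j x) ^ 2
      ≤ 100 * (α * R) ^ 2 + 4 * nm (fun x => ψ x * F j x) ^ 2 := by
  have a1 : nm (fun x => lam x * W j x) ≤ α * R :=
    (nm_le (mW j) hα (h1.mono fun x hx => (hx j).1)).trans
      (mul_le_mul_of_nonneg_left (nb j).1 hα)
  have a2 : ∀ i, nm (fun x => ψi i x * D j i x) ≤ α * R := fun i =>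
    (nm_le (mD j i) hα (h1.mono fun x hx => ((hx j).2 i).2)).trans
      (mul_le_mul_of_nonneg_left ((nb j).2 i) hα)
  have m1 := (mW j).tmul hl
  have m2 := fun i => (mD j i).tmul (hi i)
  have m3 := (mF j).tmul hψ
  simp only [Fin.sum_univ_two]
  have b1 := nm_sub_le (m1.add (((m2 0).add (m2 1)).cmul 2)) m3
  have b2 := nm_add_le m1 (((m2 0).add (m2 1)).cmul 2)
  have b3 := nm_add_le (m2 0) (m2 1)
  rw [nm_cmul, abs_two] at b2
  have b4 : nm (fun x => lam x * W j x + 2 * (ψi 0 x * D j 0 x + ψi 1 x * D j 1 x) - ψ x * F j x)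
      ≤ 5 * (α * R) + nm fun x => ψ x * F j x := by linarith [a2 0, a2 1]
  have b5 := pow_le_pow_left₀ (nm_nonneg _) b4 2
  nlinarith [sq_nonneg (5 * (α * R) - nm fun x => ψ x * F j x)]

theorem sq_le_two {u a b : ℝ} (h0 : 0 ≤ u) (h : u ≤ a + b) : u ^ 2 ≤ 2 * a ^ 2 + 2 * b ^ 2 := by
  have := pow_le_pow_left₀ h0 h 2
  nlinarith [sq_nonneg (a - b)]

theorem est2 (hH : Ht N M W D z F) (mW : ∀ j, M2 (W j)) (mD : ∀ j i, M2 (D j i)) (nb : Nb R W D)
    (hψ : Test N ψ) (hl : Test univ lam) (hi : ∀ i, Test univ (ψi i)) (hα : 0 ≤ α) (hκ : 0 ≤ κ)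
    (hM : 0 ≤ M) (h1 : Small α W D lam ψi) (h2 : ∀ i x, |pd (ee i) ψ x - ψi i x| ≤ κ * |ψ x|)
    (c1 : 16 * M * (1 + 4 * κ ^ 2) ≤ p) (c2 : 32 * M ≤ σ) (j : Fin 2) :
    2 * nm (fun x => lam x * W j x + 2 * ∑ i, ψi i x * D j i x - ψ x * F j x) ^ 2
      ≤ (100 + 64 * M) * (α * R) ^ 2 + 1 / 4 * ∑ j,
        (σ * ∑ i, nm (fun x => ψ x * D j i x + ψi i x * W j x) ^ 2
          + p * nm (fun x => ψ x * W j x) ^ 2) := by
  have e1 := est1 (fun j => (hH.m j).1) mW mD nb hψ.top hl hi hα h1 j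
  have mu := hH.mu ψ hψ
  have a1 : ∀ j i, nm (fun x => ψi i x * W j x) ≤ α * R := fun j i =>
    (nm_le (mW j) hα (h1.mono fun x hx => ((hx j).2 i).1)).trans
      (mul_le_mul_of_nonneg_left (nb j).1 hα)
  have a2 : ∀ j i, nm (fun x => ψ x * D j i x) ^ 2
      ≤ 2 * nm (fun x => ψ x * D j i x + ψi i x * W j x) ^ 2 + 2 * (α * R) ^ 2 := fun j i => by
    refine sq_le_two (nm_nonneg _) ?_
    have := nm_sub_le (((mD j i).tmul hψ).add ((mW j).tmul (hi i))) ((mW j).tmul (hi i))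
    simp only [add_sub_cancel_right] at this
    linarith [a1 j i]
  have a3 : ∀ j i, nm (fun x => pd (ee i) ψ x * W j x) ^ 2
      ≤ 2 * (κ * nm fun x => ψ x * W j x) ^ 2 + 2 * (α * R) ^ 2 := fun j i => by
    refine sq_le_two (nm_nonneg _) ?_
    have b1 := nm_add_le ((mW j).tmul ((hψ.top.pd (ee i)).sub (hi i))) ((mW j).tmul (hi i))
    have b2 : nm (fun x => (pd (ee i) ψ x - ψi i x) * W j x) ≤ κ * nm fun x => ψ x * W j x :=
      nm_le ((mW j).tmul hψ) hκ (Eventually.of_forall fun x => by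
        rw [abs_mul, abs_mul, ← mul_assoc]
        exact mul_le_mul_of_nonneg_right (h2 i x) (abs_nonneg _))
    simp only [sub_mul, sub_add_cancel] at b1 b2
    linarith [a1 j i]
  have e2 : nm (fun x => ψ x * F j x) ^ 2 ≤ ∑ j, nm (fun x => ψ x * F j x) ^ 2 :=
    Finset.single_le_sum (f := fun j => nm (fun x => ψ x * F j x) ^ 2) (fun _ _ => sq_nonneg _)
      (Finset.mem_univ j)
  refine e1.trans ?_
  have e3 := e2.trans mu
  simp only [Fin.sum_univ_two] at e3 ⊢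
  have u1 := mul_le_mul_of_nonneg_left (add_le_add (add_le_add (a2 0 0) (a2 0 1))
    (add_le_add (a2 1 0) (a2 1 1))) hM
  have u2 := mul_le_mul_of_nonneg_left (add_le_add (add_le_add (a3 0 0) (a3 0 1))
    (add_le_add (a3 1 0) (a3 1 1))) hM
  have u3 := mul_le_mul_of_nonneg_right c1 (add_nonneg (sq_nonneg (nm fun x => ψ x * W 0 x))
    (sq_nonneg (nm fun x => ψ x * W 1 x)))
  have u4 := mul_le_mul_of_nonneg_right c2 (add_nonneg (add_nonneg
    (sq_nonneg (nm fun x => ψ x * D 0 0 x + ψi 0 x * W 0 x))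
    (sq_nonneg (nm fun x => ψ x * D 0 1 x + ψi 1 x * W 0 x))) (add_nonneg
    (sq_nonneg (nm fun x => ψ x * D 1 0 x + ψi 0 x * W 1 x))
    (sq_nonneg (nm fun x => ψ x * D 1 1 x + ψi 1 x * W 1 x))))
  nlinarith

end est

theorem smS {φ : ST → ℝ} (h : ContDiff ℝ ∞ φ) (e : ST) : ContDiff ℝ ∞ (pd e φ) :=
  contDiff_infty.2 fun n => contDiff_pd e (contDiff_infty.1 h (n + 1))

theorem smL {φ : ST → ℝ} (h : ContDiff ℝ ∞ φ) : ContDiff ℝ ∞ (Lh φ) :=
  ((smS (smS h e1) e1).add (smS (smS h e2) e2)).sub (smS h e0)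

theorem slice {χ u : ST → ℝ} {N : Set P} (hc : HasCompactSupport χ)
    (hN : ∀ z ∈ tsupport χ, z.2 ∈ N) (hu : ContDiff ℝ ∞ u) (h0 : ∀ z, z ∉ tsupport χ → u z = 0)
    (t : ℝ) : Test N fun x => u (t, x) := by
  have hs : tsupport (fun x : P => u (t, x)) ⊆ {x | ((t, x) : ST) ∈ tsupport χ} :=
    closure_minimal (fun x hx => by
      by_contra h
      exact hx (h0 _ h)) ((isClosed_tsupport χ).preimage (Continuous.prodMk_right t))
  exact ⟨hu.comp (contDiff_const.prodMk contDiff_id),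
    (hc.isCompact.image continuous_snd).of_isClosed_subset (isClosed_tsupport _)
      fun x hx => ⟨_, hs hx, rfl⟩, fun x hx => hN _ (hs hx)⟩

theorem pd_sl {F : ST → ℝ} (hF : ContDiff ℝ ∞ F) (t : ℝ) (x e : P) :
    pd e (fun y => F (t, y)) x = pd (0, e) F (t, x) := by
  have a := HD.of_diff (e := ((0, e) : ST)) (hF.differentiable (by simp) (t, x))
  have b : HD e x (fun y => F (t, y)) (pd (0, e) F (t, x)) := by
    unfold HD at a ⊢
    simpa using a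
  exact b.pd_eq (sm_diff (hF.comp (contDiff_const.prodMk contDiff_id)) x)

theorem cut {K O : Set ST} (hK : IsCompact K) (hO : IsOpen O) (h : K ⊆ O) :
    ∃ χ : ST → ℝ, ContDiff ℝ ∞ χ ∧ HasCompactSupport χ ∧ tsupport χ ⊆ O ∧
      (∀ x, 0 ≤ χ x ∧ χ x ≤ 1) ∧ ∀ z ∈ K, χ =ᶠ[𝓝 z] fun _ => 1 := by
  obtain ⟨K', hK', h1, h2⟩ := exists_compact_between hK hO h
  obtain ⟨K'', hK'', h3, h4⟩ := exists_compact_between hK' hO h2
  obtain ⟨f, f0, f1, f2⟩ := exists_contMDiffMap_zero_one_of_isClosed (n := ⊤)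
    (modelWithCornersSelf ℝ ST) (isOpen_interior (s := K'')).isClosed_compl hK'.isClosed
    (disjoint_compl_left_iff_subset.2 h3)
  have hs : tsupport f ⊆ K'' := closure_minimal (fun x hx => by
    by_contra h5
    exact hx (f0 fun h6 => h5 (interior_subset h6))) hK''.isClosed
  exact ⟨f, f.contMDiff.contDiff, hK''.of_isClosed_subset (isClosed_tsupport _) hs, hs.trans h4,
    fun x => f2 x, fun z hz => mem_of_superset (isOpen_interior.mem_nhds (h1 hz)) fun x hx =>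
      f1 (interior_subset hx)⟩

theorem cpt (c : P) (q t δ : ℝ) : IsCompact {z : ST | qq c z ≤ q ∧ |z.1 - t| ≤ δ} := by
  refine Metric.isCompact_of_isClosed_isBounded ((isClosed_le (ct_qq c) continuous_const).inter
    (isClosed_le (continuous_fst.sub continuous_const).abs continuous_const)) ?_
  refine (Metric.isBounded_closedBall (x := ((t, c) : ST)) (r := |δ| + |q| + 1)).subset ?_
  intro z hz
  have a1 := hz.2
  have a2 : XX c z * XX c z + H64.YY c z * H64.YY c z ≤ q := hz.1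
  have q0 := abs_nonneg q
  have q1 := le_abs_self q
  have a3 : |XX c z| ≤ |q| + 1 :=
    abs_le.2 (abs_le_of_sq_le_sq' (by nlinarith [mul_self_nonneg (H64.YY c z)]) (by positivity))
  have a4 : |H64.YY c z| ≤ |q| + 1 :=
    abs_le.2 (abs_le_of_sq_le_sq' (by nlinarith [mul_self_nonneg (XX c z)]) (by positivity))
  rw [Metric.mem_closedBall, Prod.dist_eq, Prod.dist_eq, Real.dist_eq, Real.dist_eq,
    Real.dist_eq]
  unfold XX at a3
  unfold H64.YY at a4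
  have := le_abs_self δ
  have := abs_nonneg δ
  exact max_le (by linarith) (max_le (by linarith) (by linarith))

/-- The cut-off function. -/
structure Cut (c : P) (s t δ B K : ℝ) (χ : ST → ℝ) : Prop where
  sm : ContDiff ℝ ∞ χ
  cs : HasCompactSupport χ
  sp : ∀ z ∈ tsupport χ, s < qq c z ∧ qq c z < 13 / 10 * s ∧ |z.1 - t| < 2 * δ
  bd : ∀ z, 0 ≤ χ z ∧ χ z ≤ 1
  one : ∀ z, 104 / 100 * s ≤ qq c z → qq c z ≤ 12 / 10 * s → |z.1 - t| ≤ δ → χ =ᶠ[𝓝 z] fun _ => 1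
  B0 : 0 ≤ B
  bB : ∀ z ∈ tsupport χ, |Lh χ z| ≤ B ∧ ∀ i, |pd ((0, ee i) : ST) χ z| ≤ B ∧
    |pd ((0, ee i) : ST) (wt c s (s ^ 2 / δ ^ 2) t) z| ≤ B
  bK : ∀ z ∈ tsupport χ, (6 * s - 2 * (s ^ 2 / δ ^ 2) * (z.1 - t)) ^ 2 ≤ K

theorem exists_Cut (c : P) {s δ : ℝ} (t : ℝ) (hs : 0 < s) (hδ : 0 < δ) :
    ∃ B K χ, Cut c s t δ B K χ := by
  obtain ⟨χ, sm, cs, sp, bd, one⟩ := cut
    (K := {z : ST | qq c z ≤ 12 / 10 * s ∧ |z.1 - t| ≤ δ} ∩ {z | 104 / 100 * s ≤ qq c z})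
    (O := {z : ST | s < qq c z} ∩ ({z | qq c z < 13 / 10 * s} ∩ {z | |z.1 - t| < 2 * δ}))
    ((cpt c _ t δ).inter_right (isClosed_le continuous_const (ct_qq c)))
    ((isOpen_lt continuous_const (ct_qq c)).inter ((isOpen_lt (ct_qq c) continuous_const).inter
      (isOpen_lt (by fun_prop) continuous_const)))
    (fun z hz => ⟨lt_of_lt_of_le (b := 104 / 100 * s) (by linarith) hz.2,
      hz.1.1.trans_lt (by linarith),
      hz.1.2.trans_lt (by linarith)⟩)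
  have c1 := (smL sm).continuous
  have c2 := fun i => (smS sm (0, ee i)).continuous
  have c3 := fun i => (smS (cd_wt c s (s ^ 2 / δ ^ 2) t ∞) (0, ee i)).continuous
  obtain ⟨B, hB⟩ := cs.isCompact.exists_bound_of_continuousOn
    (f := fun z => |Lh χ z| + ∑ i, (|pd ((0, ee i) : ST) χ z|
      + |pd ((0, ee i) : ST) (wt c s (s ^ 2 / δ ^ 2) t) z|))
    (c1.abs.add (continuous_finsetSum _ fun i _ => (c2 i).abs.add (c3 i).abs)).continuousOn
  obtain ⟨K, hK⟩ := cs.isCompact.exists_bound_of_continuousOn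
    (f := fun z : ST => (6 * s - 2 * (s ^ 2 / δ ^ 2) * (z.1 - t)) ^ 2) (by fun_prop)
  refine ⟨|B|, K, χ, sm, cs, fun z hz => sp hz, bd, fun z a b d => one z ⟨⟨b, d⟩, a⟩,
    abs_nonneg B, fun z hz => ?_, fun z hz => (le_abs_self _).trans (hK z hz)⟩
  have h := ((le_abs_self _).trans (hB z hz)).trans (le_abs_self B)
  rw [Fin.sum_univ_two] at h
  have n1 := abs_nonneg (Lh χ z)
  have n2 := fun i => abs_nonneg (pd ((0, ee i) : ST) χ z)
  have n3 := fun i => abs_nonneg (pd ((0, ee i) : ST) (wt c s (s ^ 2 / δ ^ 2) t) z)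
  refine ⟨by linarith [n2 0, n2 1, n3 0, n3 1], ?_⟩
  rw [Fin.forall_fin_two]
  exact ⟨⟨by linarith [n2 0, n2 1, n3 0, n3 1], by linarith [n2 0, n2 1, n3 0, n3 1]⟩,
    by linarith [n2 0, n2 1, n3 0, n3 1], by linarith [n2 0, n2 1, n3 0, n3 1]⟩

/-- The exponential weight. -/
noncomputable def Ew (c : P) (s τ δ t₀ : ℝ) (z : ST) : ℝ :=
  Real.exp (τ * wt c s (s ^ 2 / δ ^ 2) t₀ z)

/-- A weighted time slice. -/
noncomputable def wsl (c : P) (s τ δ t₀ : ℝ) (u : ST → ℝ) (t : ℝ) (x : P) : ℝ :=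
  Ew c s τ δ t₀ (t, x) * u (t, x)

section cutoff

variable {c : P} {s τ δ t₀ B K : ℝ} {χ : ST → ℝ}

theorem sm_Ew (c : P) (s τ δ t₀ : ℝ) : ContDiff ℝ ∞ (Ew c s τ δ t₀) :=
  (contDiff_const.mul (cd_wt _ _ _ _ _)).exp

theorem test_wsl {u : ST → ℝ} {N : Set P} (hc : HasCompactSupport χ)
    (hN : ∀ z ∈ tsupport χ, z.2 ∈ N) (hu : ContDiff ℝ ∞ u) (h0 : ∀ z, z ∉ tsupport χ → u z = 0)
    (t : ℝ) : Test N (wsl c s τ δ t₀ u t) :=
  slice (u := fun z => Ew c s τ δ t₀ z * u z) hc hN ((sm_Ew c s τ δ t₀).mul hu)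
    (fun z hz => by rw [h0 z hz, mul_zero]) t

theorem Cut.t0 (h : Cut c s t₀ δ B K χ) {N : Set P} (hN : ∀ z ∈ tsupport χ, z.2 ∈ N) (τ t : ℝ) :
    Test N (wsl c s τ δ t₀ χ t) := test_wsl h.cs hN h.sm (fun _ hz => (zero_off_supp hz).1) t

theorem Cut.t1 (h : Cut c s t₀ δ B K χ) (τ t : ℝ) (i : Fin 2) :
    Test univ (wsl c s τ δ t₀ (pd ((0, ee i) : ST) χ) t) :=
  test_wsl h.cs (fun _ _ => mem_univ _) (smS h.sm _) (fun _ hz => (zero_off_supp hz).2.1 _) t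

theorem Cut.t2 (h : Cut c s t₀ δ B K χ) (τ t : ℝ) : Test univ (wsl c s τ δ t₀ (Lh χ) t) :=
  test_wsl h.cs (fun _ _ => mem_univ _) (smL h.sm) (fun _ hz => Lh_zero hz) t

theorem cR_eq (W : ℝ → L) (D : Fin 2 → ℝ → L) (F : ℝ → P → ℝ) (t : ℝ) :
    cR c s τ (s ^ 2 / δ ^ 2) t₀ χ W D F t = 2 * nm (fun x => wsl c s τ δ t₀ (Lh χ) t x * W t x
      + 2 * ∑ i, wsl c s τ δ t₀ (pd ((0, ee i) : ST) χ) t x * D i t x
      - wsl c s τ δ t₀ χ t x * F t x) ^ 2 := by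
  rw [nm_sq, ← integral_const_mul, cR]
  refine integral_congr_ae (Eventually.of_forall fun x => ?_)
  simp only [wsl, Ew, Fin.sum_univ_two]
  ring

theorem cL_eq (h : Cut c s t₀ δ B K χ) (W : ℝ → L) (D : Fin 2 → ℝ → L) (t : ℝ) :
    cL c s τ (s ^ 2 / δ ^ 2) t₀ K χ W D t = τ * s / 4 * ∑ i, nm (fun x =>
      wsl c s τ δ t₀ χ t x * D i t x + wsl c s τ δ t₀ (pd ((0, ee i) : ST) χ) t x * W t x) ^ 2
      + (4 * τ ^ 3 * s ^ 4 - 64 * τ - 2 * τ ^ 2 * K)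
        * nm (fun x => wsl c s τ δ t₀ χ t x * W t x) ^ 2 := by
  have t0 := h.t0 (N := univ) (fun _ _ => mem_univ _) τ t
  have m1 := fun i => (((M2.coe (D i t)).tmul t0).add ((M2.coe (W t)).tmul (h.t1 τ t i))).int_sq
  have m2 := ((M2.coe (W t)).tmul t0).int_sq
  simp only [nm_sq, Fin.sum_univ_two]
  rw [mul_add, ← integral_const_mul, ← integral_const_mul, ← integral_const_mul,
    ← integral_add ((m1 0).const_mul _) ((m1 1).const_mul _),
    ← integral_add (((m1 0).const_mul _).fun_add ((m1 1).const_mul _)) (m2.const_mul _), cL]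
  refine integral_congr_ae (Eventually.of_forall fun x => ?_)
  simp only [wsl, Ew, Fin.sum_univ_two]
  ring

theorem Cut.off (h : Cut c s t₀ δ B K χ) {t : ℝ} (ht : t ∉ Icc (t₀ - 2 * δ) (t₀ + 2 * δ))
    (x : P) : ((t, x) : ST) ∉ tsupport χ := fun hz => by
  have := abs_lt.1 (h.sp _ hz).2.2
  exact ht ⟨by linarith [this.1], by linarith [this.2]⟩

theorem cR_off (h : Cut c s t₀ δ B K χ) {t : ℝ} (ht : t ∉ Icc (t₀ - 2 * δ) (t₀ + 2 * δ))
    (W : ℝ → L) (D : Fin 2 → ℝ → L) (F : ℝ → P → ℝ) :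
    cR c s τ (s ^ 2 / δ ^ 2) t₀ χ W D F t = 0 := by
  have a := fun x => (zero_off_supp (h.off ht x)).1
  have b := fun x => (zero_off_supp (h.off ht x)).2.1
  have d := fun x => Lh_zero (h.off ht x)
  simp [cR, a, b, d]

theorem Cut.small (h : Cut c s t₀ δ B K χ) (hs : 0 < s) (hδ : 0 < δ) (hτ : 0 ≤ τ) {u : ST → ℝ}
    (h0 : ∀ z, z ∉ tsupport χ → u z = 0) (h1 : ∀ z, (χ =ᶠ[𝓝 z] fun _ => 1) → u z = 0)
    (h2 : ∀ z ∈ tsupport χ, |u z| ≤ B) (t : ℝ) (x : P) {f : ℝ}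
    (hf : qq c (0, x) < 21 / 20 * s → f = 0) :
    |wsl c s τ δ t₀ u t x * f| ≤ Real.exp (τ * (9 / 100 * s ^ 2)) * B * |f| := by
  have hB := h.B0
  have z0 : u (t, x) = 0 → |wsl c s τ δ t₀ u t x * f|
      ≤ Real.exp (τ * (9 / 100 * s ^ 2)) * B * |f| := fun e => by
    rw [wsl, e, mul_zero, zero_mul, abs_zero]; positivity
  by_cases hz : ((t, x) : ST) ∈ tsupport χ
  swap
  · exact z0 (h0 _ hz)
  by_cases hq : qq c (t, x) < 21 / 20 * s
  · rw [hf hq]; simp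
  by_cases hin : qq c (t, x) ≤ 12 / 10 * s ∧ |t - t₀| ≤ δ
  · exact z0 (h1 _ (h.one _ (by linarith [not_lt.1 hq]) hin.1 hin.2))
  have hw : wt c s (s ^ 2 / δ ^ 2) t₀ (t, x) ≤ 9 / 100 * s ^ 2 := by
    obtain ⟨q1, q2, -⟩ := h.sp _ hz
    have hβ : 0 ≤ s ^ 2 / δ ^ 2 := by positivity
    change mm c s (t, x) * mm c s (t, x) - s ^ 2 / δ ^ 2 * ((t - t₀) * (t - t₀)) ≤ _
    unfold mm
    rcases not_and_or.1 hin with e | e
    · have := mul_nonneg hβ (mul_self_nonneg (t - t₀))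
      nlinarith [not_le.1 e]
    · have e2 : δ ^ 2 ≤ (t - t₀) * (t - t₀) := by
        rw [← sq, ← sq_abs (t - t₀)]
        exact pow_le_pow_left₀ hδ.le (not_le.1 e).le 2
      have e3 := mul_le_mul_of_nonneg_left e2 hβ
      rw [div_mul_cancel₀ _ (by positivity)] at e3
      nlinarith
  rw [abs_mul, wsl, abs_mul, Ew, abs_of_pos (Real.exp_pos _)]
  exact mul_le_mul_of_nonneg_right (mul_le_mul (Real.exp_le_exp.2
    (mul_le_mul_of_nonneg_left hw hτ)) (h2 _ hz) (abs_nonneg _) (Real.exp_pos _).le) (abs_nonneg _)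

theorem Cut.sml (h : Cut c s t₀ δ B K χ) (hs : 0 < s) (hδ : 0 < δ) (hτ : 0 ≤ τ) (t : ℝ)
    {W : Fin 2 → P → ℝ} {D : Fin 2 → Fin 2 → P → ℝ}
    (hW : ∀ j, Van {x | qq c (0, x) < 21 / 20 * s} (W j))
    (hD : ∀ j i, Van {x | qq c (0, x) < 21 / 20 * s} (D j i)) :
    Small (Real.exp (τ * (9 / 100 * s ^ 2)) * B) W D (wsl c s τ δ t₀ (Lh χ) t)
      fun i => wsl c s τ δ t₀ (pd ((0, ee i) : ST) χ) t := by
  have p1 : ∀ (e z : ST), (χ =ᶠ[𝓝 z] fun _ => 1) → pd e χ z = 0 := fun e z hz => by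
    rw [pd_congr_pt e hz, pd_const]
  have p2 : ∀ z : ST, (χ =ᶠ[𝓝 z] fun _ => 1) → Lh χ z = 0 := fun z hz => by
    have : ∀ e : ST, pd e (fun _ : ST => (1 : ℝ)) = fun _ => 0 := fun e => funext fun y =>
      pd_const e y 1
    rw [Lh_congr hz]
    simp [Lh, this, pd_const]
  filter_upwards [ae_all_iff.2 hW, ae_all_iff.2 fun j => ae_all_iff.2 (hD j)] with x a b j
  exact ⟨h.small hs hδ hτ (fun _ hz => Lh_zero hz) p2 (fun z hz => (h.bB z hz).1) t x (a j),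
    fun i => ⟨h.small hs hδ hτ (fun _ hz => (zero_off_supp hz).2.1 _) (p1 _)
      (fun z hz => ((h.bB z hz).2 i).1) t x (a j),
    h.small hs hδ hτ (fun _ hz => (zero_off_supp hz).2.1 _) (p1 _)
      (fun z hz => ((h.bB z hz).2 i).1) t x (b j i)⟩⟩

theorem Cut.der (h : Cut c s t₀ δ B K χ) (hτ : 0 ≤ τ) (t : ℝ) (i : Fin 2) (x : P) :
    |pd (ee i) (wsl c s τ δ t₀ χ t) x - wsl c s τ δ t₀ (pd ((0, ee i) : ST) χ) t x|
      ≤ τ * B * |wsl c s τ δ t₀ χ t x| := by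
  have e : pd (ee i) (wsl c s τ δ t₀ χ t) x - wsl c s τ δ t₀ (pd ((0, ee i) : ST) χ) t x
      = τ * pd ((0, ee i) : ST) (wt c s (s ^ 2 / δ ^ 2) t₀) (t, x) * wsl c s τ δ t₀ χ t x := by
    have a := pd_sl ((sm_Ew c s τ δ t₀).mul h.sm) t x (ee i)
    have b := ((((HD.of_diff (e := ((0, ee i) : ST)) (z := (t, x))
      ((cd_wt c s (s ^ 2 / δ ^ 2) t₀ ∞).differentiable (by simp) _)).cmul τ).exp).mul
      (HD.of_diff (h.sm.differentiable (by simp) _))).pd_eq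
      (((sm_Ew c s τ δ t₀).mul h.sm).differentiable (by simp) _)
    have d : pd (ee i) (wsl c s τ δ t₀ χ t) x = _ := a.trans b
    rw [d]
    simp only [wsl, Ew]
    ring
  rw [e, abs_mul, abs_mul, abs_of_nonneg hτ]
  by_cases hz : ((t, x) : ST) ∈ tsupport χ
  · exact mul_le_mul_of_nonneg_right (mul_le_mul_of_nonneg_left ((h.bB _ hz).2 i).2 hτ)
      (abs_nonneg _)
  · simp [wsl, (zero_off_supp hz).1]

theorem Cut.sup (h : Cut c s t₀ δ B K χ) (hs : 0 < s) (hτ : 0 ≤ τ) (t : ℝ) (x : P) :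
    |wsl c s τ δ t₀ χ t x| ≤ Real.exp (τ * s ^ 2) := by
  by_cases hz : ((t, x) : ST) ∈ tsupport χ
  swap
  · rw [wsl, (zero_off_supp hz).1, mul_zero, abs_zero]; positivity
  have hw : wt c s (s ^ 2 / δ ^ 2) t₀ (t, x) ≤ s ^ 2 := by
    obtain ⟨q1, q2, -⟩ := h.sp _ hz
    have hβ : 0 ≤ s ^ 2 / δ ^ 2 := by positivity
    change mm c s (t, x) * mm c s (t, x) - s ^ 2 / δ ^ 2 * ((t - t₀) * (t - t₀)) ≤ _
    unfold mm
    have := mul_nonneg hβ (mul_self_nonneg (t - t₀))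
    nlinarith
  rw [wsl, abs_mul, Ew, abs_of_pos (Real.exp_pos _), abs_of_nonneg (h.bd _).1]
  exact (mul_le_of_le_one_right (Real.exp_pos _).le (h.bd _).2).trans
    (Real.exp_le_exp.2 (mul_le_mul_of_nonneg_left hw hτ))

theorem Cut.low (h : Cut c s t₀ δ B K χ) (hs : 0 < s) (hδ : 0 < δ) (hτ : 0 ≤ τ) {t : ℝ}
    (ht : |t - t₀| ≤ δ / 10) (x : P) {m f : ℝ} (hm : |m| ≤ 1)
    (hm0 : m ≠ 0 → qq c (0, x) < 23 / 20 * s) (hf : qq c (0, x) < 21 / 20 * s → f = 0) :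
    |Real.exp (τ * (9 / 100 * s ^ 2)) * (m * f)| ≤ |wsl c s τ δ t₀ χ t x * f| := by
  by_cases h0 : m = 0
  · rw [h0, zero_mul, mul_zero, abs_zero]; exact abs_nonneg _
  by_cases hq : qq c (t, x) < 21 / 20 * s
  · simp [hf hq]
  have q2 : qq c (t, x) < 23 / 20 * s := hm0 h0
  have q1 := not_lt.1 hq
  have e1 : χ (t, x) = 1 :=
    (h.one (t, x) (by linarith) (by linarith) (ht.trans (by linarith))).eq_of_nhds
  have hw : 9 / 100 * s ^ 2 ≤ wt c s (s ^ 2 / δ ^ 2) t₀ (t, x) := by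
    have hβ : 0 ≤ s ^ 2 / δ ^ 2 := by positivity
    change _ ≤ mm c s (t, x) * mm c s (t, x) - s ^ 2 / δ ^ 2 * ((t - t₀) * (t - t₀))
    unfold mm
    have e2 : (t - t₀) * (t - t₀) ≤ δ ^ 2 * (1 / 100) := by
      rw [← sq, ← sq_abs (t - t₀)]
      exact (pow_le_pow_left₀ (abs_nonneg _) ht 2).trans_eq (by ring)
    have e3 := mul_le_mul_of_nonneg_left e2 hβ
    rw [← mul_assoc _ (δ ^ 2), div_mul_cancel₀ _ (by positivity)] at e3
    nlinarith
  rw [wsl, e1, mul_one, abs_mul, abs_mul, abs_mul, Ew, abs_of_pos (Real.exp_pos _),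
    abs_of_pos (Real.exp_pos _)]
  exact mul_le_mul (Real.exp_le_exp.2 (mul_le_mul_of_nonneg_left hw hτ))
    (mul_le_of_le_one_left (abs_nonneg _) hm) (by positivity) (Real.exp_pos _).le

end cutoff

theorem big {s M B K A : ℝ} (hs : 0 < s) (hM : 0 ≤ M) : ∃ τ : ℝ, 0 < τ ∧ A < τ ∧
    32 * M ≤ τ * s / 4 ∧ τ ≤ 4 * τ ^ 3 * s ^ 4 - 64 * τ - 2 * τ ^ 2 * K ∧
    16 * M * (1 + 4 * (τ * B) ^ 2) ≤ 4 * τ ^ 3 * s ^ 4 - 64 * τ - 2 * τ ^ 2 * K := by
  have hs4 : 0 < s ^ 4 := by positivity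
  have ev : ∀ᶠ τ : ℝ in atTop, (1 ≤ τ ∧ 128 * M / s ≤ τ) ∧
      ((16 * M + 64 * M * B ^ 2 + 65 + 2 * |K|) / s ^ 4 ≤ τ ∧ A < τ) :=
    ((eventually_ge_atTop _).and (eventually_ge_atTop _)).and
      ((eventually_ge_atTop _).and (eventually_gt_atTop _))
  obtain ⟨τ, ⟨h1, h2⟩, h3, h4⟩ := ev.exists
  rw [div_le_iff₀ hs] at h2
  rw [div_le_iff₀ hs4] at h3
  have hK := le_abs_self K
  have hK0 := abs_nonneg K
  have t2 : τ ≤ τ ^ 2 := by nlinarith
  have t3 : 1 ≤ τ ^ 2 := by nlinarith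
  have u1 := mul_le_mul_of_nonneg_left h3 (sq_nonneg τ)
  have u2 := mul_le_mul_of_nonneg_left hK (sq_nonneg τ)
  have u3 := mul_le_mul_of_nonneg_left t3 hM
  have u4 : 0 ≤ τ ^ 3 * s ^ 4 := by positivity
  have u5 : 0 ≤ M * (τ * B) ^ 2 := by positivity
  exact ⟨τ, by linarith, h4, by linarith, by nlinarith, by nlinarith⟩

theorem bound (h1 : Rc1S) {c : P} {s M δ t₀ B K R τ : ℝ} {I : Set ℝ} {N : Set P} {w : ℝ → E6}
    {χ : ST → ℝ} {F : ℝ → Fin 2 → P → ℝ} (hs : 0 < s) (hM : 0 ≤ M) (hδ : 0 < δ) (hτ : 0 < τ)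
    (hN : IsOpen N) (hw : ContDiff ℝ ∞ w) (hY : ∀ t, w t ∈ YZ univ)
    (hsub : {x | qq c (0, x) < 3 / 2 * s} ⊆ N) (h : Cut c s t₀ δ B K χ)
    (hJ : Icc (t₀ - 2 * δ) (t₀ + 2 * δ) ⊆ I) (hR : ∀ t ∈ Icc (t₀ - 2 * δ) (t₀ + 2 * δ), ‖w t‖ ≤ R)
    (hF : ∀ t ∈ I, Ht N M (vl (w t)) (gj (w t)) (vl (deriv w t)) (F t))
    (hv : ∀ t ∈ I, ∀ j, Van {x | qq c (0, x) < 21 / 20 * s} (vl (w t) j))
    (c2 : 32 * M ≤ τ * s / 4) (c3 : 0 ≤ 4 * τ ^ 3 * s ^ 4 - 64 * τ - 2 * τ ^ 2 * K)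
    (c1 : 16 * M * (1 + 4 * (τ * B) ^ 2) ≤ 4 * τ ^ 3 * s ^ 4 - 64 * τ - 2 * τ ^ 2 * K)
    (j : Fin 2) :
    Integrable (cL c s τ (s ^ 2 / δ ^ 2) t₀ K χ (cp w (j, none)) fun i => cp w (j, some i)) ∧
      ∫ t, cL c s τ (s ^ 2 / δ ^ 2) t₀ K χ (cp w (j, none)) (fun i => cp w (j, some i)) t
        ≤ Real.exp (τ * (9 / 100 * s ^ 2)) ^ 2 * (16 * δ * (100 + 64 * M) * (B * R) ^ 2) := by
  set J := Icc (t₀ - 2 * δ) (t₀ + 2 * δ) with hJd
  set α := Real.exp (τ * (9 / 100 * s ^ 2)) * B with hα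
  have α0 : 0 ≤ α := mul_nonneg (Real.exp_pos _).le h.B0
  have hχN : ∀ z ∈ tsupport χ, z.2 ∈ N := fun z hz =>
    hsub (lt_trans (h.sp z hz).2.1 (by linarith))
  have oD : IsOpen {x : P | qq c (0, x) < 21 / 20 * s} :=
    isOpen_lt ((ct_qq c).comp (Continuous.prodMk_right 0)) continuous_const
  have nb : ∀ t ∈ J, Nb R (vl (w t)) (gj (w t)) := fun t ht j =>
    ⟨(nb_norm (w t) j).1.trans (hR t ht), fun i => ((nb_norm (w t) j).2 i).trans (hR t ht)⟩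
  have sml : ∀ t ∈ J, Small α (vl (w t)) (gj (w t)) _ _ := fun t ht =>
    h.sml hs hδ hτ.le t (hv t (hJ ht)) fun j i =>
      ((hY t).1 j).van oD (subset_univ _) Gam.zero (hv t (hJ ht) j) i
  have rc : ∀ (j : Fin 2) (b : ℝ → ℝ), Integrable b → (∀ t, cR c s τ (s ^ 2 / δ ^ 2) t₀ χ
      (cp w (j, none)) (fun i => cp w (j, some i)) (fun t => F t j) t ≤ b t) → _ :=
    fun j b hb hb' => h1 c s τ (s ^ 2 / δ ^ 2) t₀ K M χ I N (cp w (j, none))
      (fun i => cp w (j, some i)) (fun t => F t j) b hs hτ.le hN h.sm h.cs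
      (fun z hz => ⟨hJ (by
          have := abs_lt.1 (h.sp z hz).2.2
          exact ⟨by linarith [this.1], by linarith [this.2]⟩), hχN z hz, (h.sp z hz).1.le,
        (h.sp z hz).2.1.le, h.bK z hz⟩)
      (sm_cp hw _) (fun i => (sm_cp hw _).continuous)
      (fun t i => ((H1O.zero_iff.1 ((hY t).1 j)).2 i).2)
      (fun t ht => ⟨((hF t ht).m j).1, ((hF t ht).m j).2, fun φ hφ => by
        rw [deriv_cp hw]; exact (hF t ht).eq j φ hφ⟩) hb hb'
  have iJ : ∀ a : ℝ, Integrable (J.indicator fun _ => a) := fun a =>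
    (integrable_indicator_iff measurableSet_Icc).2 (integrableOn_const measure_Icc_lt_top.ne)
  have vJ : ∀ a : ℝ, ∫ t, J.indicator (fun _ => a) t = 4 * δ * a := fun a => by
    rw [integral_indicator measurableSet_Icc, setIntegral_const, smul_eq_mul,
      Real.volume_real_Icc_of_le (by linarith)]
    ring
  have int : ∀ j : Fin 2, Integrable (cL c s τ (s ^ 2 / δ ^ 2) t₀ K χ (cp w (j, none))
      fun i => cp w (j, some i)) := fun j => by
    refine (rc j _ (iJ (100 * (α * R) ^ 2 + 4 * (Real.exp (τ * s ^ 2) * M) ^ 2)) fun t => ?_).1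
    by_cases ht : t ∈ J
    swap
    · rw [cR_off h ht, indicator_of_notMem ht]
    rw [indicator_of_mem ht, cR_eq]
    have hH := hF t (hJ ht)
    refine (est1 (fun j => (hH.m j).1) (m2_vl _) (m2_gj _) (nb t ht) (h.t0 hχN τ t).top (h.t2 τ t)
      (h.t1 τ t) α0 (sml t ht) j).trans ?_
    have a1 : nm (fun x => wsl c s τ δ t₀ χ t x * F t j x) ≤ Real.exp (τ * s ^ 2) * M :=
      (nm_bmul (hH.m j).1 (Real.exp_pos _).le
        (Eventually.of_forall (h.sup hs hτ.le t))).trans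
        (mul_le_mul_of_nonneg_left (hH.m j).2 (Real.exp_pos _).le)
    linarith [pow_le_pow_left₀ (nm_nonneg _) a1 2]
  have pos : ∀ (j : Fin 2) (t : ℝ), 0 ≤ cL c s τ (s ^ 2 / δ ^ 2) t₀ K χ (cp w (j, none))
      (fun i => cp w (j, some i)) t := fun j t => by
    rw [cL_eq h]
    exact add_nonneg (mul_nonneg (by positivity) (Finset.sum_nonneg fun _ _ => sq_nonneg _))
      (mul_nonneg c3 (sq_nonneg _))
  have iS := ((int 0).fun_add (int 1)).const_mul (1 / 4)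
  have fin : ∀ j : Fin 2, _ := fun j => (rc j _ ((iJ ((100 + 64 * M) * (α * R) ^ 2)).fun_add iS)
    fun t => by
      by_cases ht : t ∈ J
      swap
      · rw [cR_off h ht, indicator_of_notMem ht]
        linarith [pos 0 t, pos 1 t]
      rw [indicator_of_mem ht, cR_eq, cL_eq h, cL_eq h]
      have := est2 (hF t (hJ ht)) (m2_vl _) (m2_gj _) (nb t ht) (h.t0 hχN τ t) (h.t2 τ t)
        (h.t1 τ t) α0 (mul_nonneg hτ.le h.B0) hM (sml t ht) (h.der hτ.le t) c1 c2 j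
      rw [Fin.sum_univ_two (f := fun j => τ * s / 4 * _ + _)] at this
      exact this).2
  have f0 := fin 0
  have f1 := fin 1
  rw [integral_add (iJ _) iS, integral_const_mul, integral_add (int 0) (int 1), vJ] at f0 f1
  have pp : ∀ j : Fin 2, 0 ≤ ∫ t, cL c s τ (s ^ 2 / δ ^ 2) t₀ K χ (cp w (j, none))
      (fun i => cp w (j, some i)) t := fun j => integral_nonneg (pos j)
  have p0 := pp 0
  have p1 := pp 1
  have e : Real.exp (τ * (9 / 100 * s ^ 2)) ^ 2 * (16 * δ * (100 + 64 * M) * (B * R) ^ 2)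
      = 4 * (4 * δ * ((100 + 64 * M) * (α * R) ^ 2)) := by rw [hα]; ring
  refine ⟨int j, ?_⟩
  rw [e]
  revert j
  rw [Fin.forall_fin_two]
  constructor <;> linarith

end Rc2

open Rc2 in
theorem rowRc2 : OfRc2 := by
  intro h1 c s M I N w hs hM hI hN hw hY hsub hF hv t₀ ht₀ j
  choose! F hF using hF
  obtain ⟨ε, hε, hεI⟩ := Metric.isOpen_iff.1 hI t₀ ht₀
  have hδ : 0 < ε / 3 := by positivity
  set δ := ε / 3 with hδd
  have hJ : Icc (t₀ - 2 * δ) (t₀ + 2 * δ) ⊆ I := fun t ht => hεI (by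
    rw [Metric.mem_ball, Real.dist_eq, abs_lt]
    exact ⟨by linarith [ht.1], by linarith [ht.2]⟩)
  obtain ⟨B, K, χ, h⟩ := exists_Cut c t₀ hs hδ
  obtain ⟨R, hR⟩ := (isCompact_Icc (a := t₀ - 2 * δ) (b := t₀ + 2 * δ)).exists_bound_of_continuousOn
    hw.continuous.continuousOn
  have cq : Continuous fun x : P => qq c (0, x) := (ct_qq c).comp (Continuous.prodMk_right 0)
  have kc : IsCompact {x : P | qq c (0, x) ≤ 11 / 10 * s} :=
    ((cpt c (11 / 10 * s) 0 0).image continuous_snd).of_isClosed_subset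
      (isClosed_le cq continuous_const) fun x hx => ⟨(0, x), ⟨hx, by simp⟩, rfl⟩
  obtain ⟨m, hm, m01, m1⟩ := exists_cut kc (isOpen_lt cq (continuous_const (y := 23 / 20 * s)))
    fun x hx => lt_of_le_of_lt (b := 11 / 10 * s) hx (by linarith)
  obtain ⟨T, hT⟩ := exists_mul hm.top
  have cΨ : Continuous fun t => ‖T (cp w (j, none) t)‖ :=
    (T.continuous.comp (sm_cp hw _).continuous).norm
  have eΨ : ∀ t, ‖T (cp w (j, none) t)‖ = nm fun x => m x * vl (w t) j x := fun t => by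
    rw [← nm_coe]; exact nm_congr (hT _)
  have z0 : ‖T (cp w (j, none) t₀)‖ = 0 := by
    by_contra hne
    have hp : 0 < ‖T (cp w (j, none) t₀)‖ / 2 :=
      half_pos (lt_of_le_of_ne (norm_nonneg _) (Ne.symm hne))
    set κ := ‖T (cp w (j, none) t₀)‖ / 2 with hκ
    obtain ⟨η₀, hη₀, hη⟩ := Metric.eventually_nhds_iff.1
      (cΨ.continuousAt.eventually (lt_mem_nhds (show κ < ‖T (cp w (j, none) t₀)‖ by linarith)))
    set η := min (η₀ / 2) (δ / 10) with hηd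
    have η0 : 0 < η := lt_min (by positivity) (by positivity)
    have η1 : η ≤ η₀ / 2 := min_le_left _ _
    have η2 : η ≤ δ / 10 := min_le_right _ _
    obtain ⟨τ, hτ, hA, c2, c3, c1⟩ := big (B := B) (K := K)
      (A := 16 * δ * (100 + 64 * M) * (B * R) ^ 2 / (2 * η * κ ^ 2)) hs hM
    obtain ⟨i1, i2⟩ := bound h1 hs hM hδ hτ hN hw hY hsub h hJ hR hF hv c2 (hτ.le.trans c3) c1 j
    set E := Real.exp (τ * (9 / 100 * s ^ 2)) with hE
    have E0 : 0 < E := Real.exp_pos _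
    have i3 : ∫ t, (Icc (t₀ - η) (t₀ + η)).indicator (fun _ => τ * (E * κ) ^ 2) t ≤ _ :=
      integral_mono ((integrable_indicator_iff measurableSet_Icc).2
        (integrableOn_const measure_Icc_lt_top.ne)) i1 fun t => by
        rw [cL_eq h]
        have n1 : 0 ≤ τ * s / 4 * ∑ i, nm (fun x => wsl c s τ δ t₀ χ t x * cp w (j, some i) t x
            + wsl c s τ δ t₀ (pd ((0, ee i) : ST) χ) t x * cp w (j, none) t x) ^ 2 :=
          mul_nonneg (by positivity) (Finset.sum_nonneg fun _ _ => sq_nonneg _)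
        by_cases ht : t ∈ Icc (t₀ - η) (t₀ + η)
        swap
        · rw [indicator_of_notMem ht]
          exact add_nonneg n1 (mul_nonneg (hτ.le.trans c3) (sq_nonneg _))
        rw [indicator_of_mem ht]
        have ht1 : |t - t₀| ≤ η := abs_le.2 ⟨by linarith [ht.1], by linarith [ht.2]⟩
        have htI : t ∈ I := hJ ⟨by linarith [ht.1], by linarith [ht.2]⟩
        have a1 : κ < nm fun x => m x * vl (w t) j x := by
          rw [← eΨ]
          exact hη (by rw [Real.dist_eq]; linarith)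
        have a2 : nm (fun x => E * (m x * vl (w t) j x))
            ≤ nm fun x => wsl c s τ δ t₀ χ t x * vl (w t) j x := by
          refine nm_mono ((m2_vl _ j).tmul (h.t0 (N := univ) (fun _ _ => mem_univ _) τ t)) ?_
          filter_upwards [hv t htI j] with x hx
          exact h.low hs hδ hτ.le (ht1.trans η2) x
            (by rw [abs_of_nonneg (m01 x).1]; exact (m01 x).2)
            (fun h0 => hm.2.2 (subset_tsupport m h0)) hx
        rw [nm_cmul, abs_of_pos E0] at a2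
        have a3 : E * κ ≤ nm fun x => wsl c s τ δ t₀ χ t x * vl (w t) j x :=
          (mul_le_mul_of_nonneg_left a1.le E0.le).trans a2
        exact le_add_of_nonneg_of_le n1 (mul_le_mul c3 (pow_le_pow_left₀ (by positivity) a3 2)
          (sq_nonneg _) (hτ.le.trans c3))
    rw [integral_indicator measurableSet_Icc, setIntegral_const, smul_eq_mul,
      Real.volume_real_Icc_of_le (by linarith)] at i3
    rw [div_lt_iff₀ (by positivity)] at hA
    have i4 := mul_lt_mul_of_pos_left hA (pow_pos E0 2)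
    have i5 := i3.trans i2
    nlinarith
  rw [eΨ] at z0
  filter_upwards [nm_eq_zero ((m2_vl _ j).tmul hm) z0] with x hx hq
  have : m x = 1 := m1.self_of_nhdsSet x (le_of_lt hq)
  rwa [this, one_mul] at hx

end Pool.Agent.MP_ed9623_an.H77
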